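import Pool.Agent.Helper24.S7.ADP
import Pool.Agent.Helper42.SQ.TENg

/-!
# SQ, stage 7, block TENV: semistability and the laws of the valuations
-/

set_option autoImplicit false

namespace Pool.Agent.SQ

open Module

universe u

theorem tenv {k K : Type u} [Field k] [CharZero k] [Field K] [Algebra k K] {ι : Type*} [Fintype ι] (ω : ι → K → ℝ)
    (hω : ∀ i, RV k (ω i)) (c : ι → ℝ) (V : Submodule k K) [FiniteDimensional k V] {n : ℕ} (hn : finrank k V = n + 1)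
    {N : ℕ} (hN : 0 < N) (ha : ∀ i, ∀ x ∈ V, x ≠ 0 → 0 ≤ ω i x + c i)
    (hb : ∀ i, ∀ m : ℕ, ∀ x ∈ V ^ m, x ≠ 0 → ω i x + m * c i ≤ m)
    (hss : ∀ E ≤ V, (n + 1) * ∑ i, SN (hω i) N (c i) E ≤ (∑ i, SN (hω i) N (c i) V) * finrank k E) {a : ℕ} (ha0 : 0 < a) :
    (∑ i, SN (hω i) N (c i) V : ℝ) / (n + 1) ≤
      N * (∑ i, ∫ x in (0 : ℝ)..1, pl (hω i) (c i) V a x) + ((n + 1) * Fintype.card ι + 1) := by
  classical
  have hfg : (V ^ a).FG := (Module.Finite.iff_fg.1 inferInstance : V.FG).pow a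
  have hfd : FiniteDimensional k ↥(V ^ a) := Module.Finite.iff_fg.2 hfg
  have hV0 : V ≠ ⊥ := by
    intro h
    rw [h, finrank_bot] at hn
    omega
  have hD0 : 0 < finrank k ↥(V ^ a) := by
    obtain ⟨x, hx, hx0⟩ := V.ne_bot_iff.1 hV0
    have h1 : x ^ a ∈ V ^ a := Submodule.pow_mem_pow V hx a
    have h2 : Nontrivial ↥(V ^ a) := ⟨⟨⟨x ^ a, h1⟩, 0, fun h => pow_ne_zero a hx0 (congrArg Subtype.val h)⟩⟩
    exact finrank_pos
  have key := ten_g ω hω (fun i (_ : Fin 1) => c i) (fun _ => V) (Nat.succ_pos n) (fun _ => hn) hN (fun i _ => ha i)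
    (∑ i, SN (hω i) N (c i) V) (fun _ => rfl) (fun _ E hE => hss E hE) a
  have e1 : (∏ _a : Fin 1, V) = V := by simp
  rw [e1] at key
  simp only [Finset.univ_unique, Finset.sum_singleton, Fintype.card_fin, one_mul, Nat.succ_eq_add_one] at key
  have h1 : ∀ i, (SN (hω i) N (a * c i) (V ^ a) : ℝ) ≤
      N * (a * (finrank k ↥(V ^ a) * ∫ x in (0 : ℝ)..1, pl (hω i) (c i) V a x)) := by
    intro i
    obtain ⟨e, he1, he2, he3, he4⟩ := adp (hω i) (c i) V (ha i) ha0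
    refine (he3 N hN).trans (mul_le_mul_of_nonneg_left (le_of_eq ?_) (Nat.cast_nonneg N))
    rw [← he4 1 zero_le_one, Finset.mul_sum]
    refine Finset.sum_congr rfl fun j _ => ?_
    have ha' : (0 : ℝ) < a := by exact_mod_cast ha0
    have h2 := hb i a (e j) (he2 j) (he1.ne_zero j)
    have h3 : ω i (e j) / a + c i ≤ 1 := by
      rw [div_add' _ _ _ ha'.ne', div_le_one ha']
      linarith
    rw [min_eq_right h3]
    field_simp
  have hD : (0 : ℝ) < finrank k ↥(V ^ a) := by exact_mod_cast hD0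
  have ha' : (0 : ℝ) < a := by exact_mod_cast ha0
  have hn1 : (0 : ℝ) < (n : ℝ) + 1 := by positivity
  have key' : ((a * finrank k ↥(V ^ a) * (∑ i, SN (hω i) N (c i) V) : ℕ) : ℝ) ≤
      (((n + 1) * (∑ i, SN (hω i) N (a * c i) (V ^ a)) +
        a * finrank k ↥(V ^ a) * ((n + 1) * ((n + 1) * Fintype.card ι + 1)) : ℕ) : ℝ) := by exact_mod_cast key
  push_cast at key'
  have h2 : ∑ i, (SN (hω i) N (a * c i) (V ^ a) : ℝ) ≤
      a * finrank k ↥(V ^ a) * (N * ∑ i, ∫ x in (0 : ℝ)..1, pl (hω i) (c i) V a x) := by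
    refine (Finset.sum_le_sum fun i _ => h1 i).trans (le_of_eq ?_)
    rw [Finset.mul_sum, Finset.mul_sum]
    exact Finset.sum_congr rfl fun i _ => by ring
  have h3 : (a : ℝ) * finrank k ↥(V ^ a) * (∑ i, (SN (hω i) N (c i) V : ℝ)) ≤
      (a * finrank k ↥(V ^ a)) * ((n + 1) * (N * (∑ i, ∫ x in (0 : ℝ)..1, pl (hω i) (c i) V a x) +
        ((n + 1) * Fintype.card ι + 1))) := by
    have h4 := mul_le_mul_of_nonneg_left h2 hn1.le
    nlinarith
  have h5 := le_of_mul_le_mul_left h3 (by positivity)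
  rw [div_le_iff₀ hn1]
  linarith

end Pool.Agent.SQ
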